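import Pool.Agent.U513.AP.Primes

/-!
# The differences of the square roots of consecutive primes around the approximations of almost all points

Let `α ∈ ℝ ^ d` and consider all its approximations `(k, u_1, …, u_d)` with `|k α_i - γ_i - u_i| ≤ k ^ (-τ)`; for `d = 1`, `γ = 0`,
`τ = 1` these contain the denominators and numerators of all the convergents of the continued fraction of `α`, for `τ = 1 / d` all
the best simultaneous approximations. We show that for all `α` outside of a set of Hausdorff dimension at most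
`(d + 0.306 + w - δ) / (1 + τ)`, `w ≥ 1/2`, the differences `√q - √p` tend to zero, `√q - √p < p ^ (-δ)`, for ALL the pairs of
consecutive primes `p < q` such that `[p, q]` contains an integer `m ≥ 1` at a distance of at most `k ^ w` from
`a k + b_1 u_1 + ⋯ + b_d u_d`, for every integral linear form `(a, b) ≠ 0` and all these approximations with large `k`; moreover all the
intervals of length `H ≥ a ^ (1/2 - δ)` around `m` contain at least `c H / log a` primes. For `d = 1`, `τ = 1`, `w = 1/2` the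
dimension is at most `0.903`. The theorem is more general: linear forms are replaced by all the integral polynomials
`P(k, u)` of degree at most `D` with small level sets and `w ≥ D / 2`, with the dimension `(d + 1 - l + 0.306 D + w - δ) / (1 + τ)`, for
example `k ^ 2 + u_1 ^ 2 + Q(u_2, …)` with `l = D = 2`. There is a second version, with the stronger
inequality `√q - √p < p ^ (-5/16 - δ)`.

Proof. The starting library bounds the number of separated short intervals with few primes (`Pool/Agent/Q278/KT`), in the form of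
helper766 (`U766/OP/Core`) and helper821 (`S821/Poor`, representatives with a power saving). The integral vectors `(k, u)` with `k ≈ N`
and `P(k, u)` near the representatives are counted with the level sets of `P` (`U513/AP/Core`), and the sets of the `α` approximated
by them, cubes of side `2 N ^ (- 1 - τ)`, are used as the covers in the definition of the Hausdorff measure. The numbers `k`, `u` have
the density zero for a given `α`, so that the bounds for the number of exceptional `n` alone do not say anything about them.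
-/

set_option autoImplicit false

open Finset Filter MeasureTheory

namespace Pool.Agent.Results.MP_3998cf_nt.Approximations

/-- The two scales: the lengths `x ^ (θ - δ)` and the exponents `s` of the numbers of the exceptional intervals. -/
def Scale (θ s : ℝ) : Prop := (θ = 1 / 2 ∧ s = 0.306) ∨ (θ = 3 / 16 ∧ s = 13 / 16)

/-- `p < q` are consecutive primes. -/
def Consecutive (p q : ℕ) : Prop := p.Prime ∧ q.Prime ∧ p < q ∧ ∀ r : ℕ, p < r → r < q → ¬ r.Prime

/-- Every interval `(a, a + H]` in `[m - m ^ θ, m + m ^ θ]` of length `H ≥ a ^ (θ - δ)` contains at least `c H / log a` primes. -/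
def ManyPrimes (c δ θ : ℝ) (m : ℕ) : Prop := ∀ a H : ℕ, |(a : ℝ) - m| ≤ (m : ℝ) ^ θ → |((a : ℝ) + H) - m| ≤ (m : ℝ) ^ θ →
  (a : ℝ) ^ (θ - δ) ≤ H → c * H / Real.log a ≤ (((Finset.Ioc a (a + H)).filter Nat.Prime).card : ℝ)

/-- All the consecutive primes `p < q` such that `[p, q]` meets `[m - m ^ θ, m + m ^ θ]` satisfy `√q - √p < p ^ (θ - 1/2 - δ)`. -/
def SmallDifferences (δ θ : ℝ) (m : ℕ) : Prop := ∀ p q : ℕ, Consecutive p q → (p : ℝ) ≤ m + (m : ℝ) ^ θ →
  m - (m : ℝ) ^ θ ≤ q → Real.sqrt q - Real.sqrt p < (p : ℝ) ^ (θ - 1 / 2 - δ)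

/-- The level sets of `P` in the boxes `|w_i| ≤ X` have at most `C X ^ (r - l + ε)` elements. -/
def SmallLevels {r : ℕ} (P : MvPolynomial (Fin r) ℤ) (l : ℝ) : Prop :=
  l ≤ r ∧ ∀ ε : ℝ, 0 < ε → ∃ C : ℝ, ∀ X : ℕ, 1 ≤ X → ∀ v : ℤ,
    ({w : Fin r → ℤ | (∀ i, |w i| ≤ X) ∧ MvPolynomial.eval w P = v}.ncard : ℝ) ≤ C * (X : ℝ) ^ (r - l + ε)

/-- the polynomial `x_0 ^ 2 + x_1 ^ 2 + Q(x_2, x_3, …)` -/
noncomputable def squaresPlus {r : ℕ} (Q : MvPolynomial (Fin r) ℤ) : MvPolynomial (Fin (r + 2)) ℤ :=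
  MvPolynomial.X 0 ^ 2 + MvPolynomial.X 1 ^ 2 + MvPolynomial.rename (fun i : Fin r => i.succ.succ) Q

/-- `(k, u)` is an approximation of `α` of exponent `τ` and shift `γ`: `|k α_i - γ_i - u_i| ≤ k ^ (-τ)` for all `i`. -/
def Approx {d : ℕ} (τ : ℝ) (γ α : Fin d → ℝ) (k : ℕ) (u : Fin d → ℤ) : Prop :=
  ∀ i, |(k : ℝ) * α i - γ i - u i| ≤ (k : ℝ) ^ (-τ)

lemma conv {c c' δ δ' θ : ℝ} {m : ℕ} (hc : c ≤ c') (hδ : δ ≤ δ')
    (h : Pool.Agent.U513.AP.Dense c' (θ - δ') θ m ∧ Pool.Agent.U513.AP.Small (θ - δ') θ m) :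
    ManyPrimes c δ θ m ∧ SmallDifferences δ θ m := by
  refine ⟨h.1.mono hc (by linarith), fun p q hpq h1 h2 => ?_⟩
  have h4 := Pool.Agent.U513.AP.andrica h.2 p q hpq.1 hpq.2.1 hpq.2.2.1 hpq.2.2.2 h1 h2
  have hp : (1 : ℝ) < p := by exact_mod_cast hpq.1.one_lt
  exact h4.trans_le (Real.rpow_le_rpow_of_exponent_le hp.le (by linarith))

/-- **The differences of the square roots around the approximations of almost all points.** There are `c > 0` and `δ > 0` such that
for `(θ, s) = (1/2, 0.306)`, `(3/16, 13/16)`, for all `d ≥ 1`, `D ≥ 1`, `τ ≥ 0`, `w ≥ θ D`, `l` and all `γ ∈ ℝ ^ d` there is a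
set `E` of Hausdorff dimension at most `(d + 1 - l + s D + w - δ) / (1 + τ)` (of Lebesgue measure zero if `s D + w + 1 ≤ l + d τ`), such
that for all `α ∉ E` and all integral polynomials `P` in `d + 1` variables of degree at most `D` with `SmallLevels P l`, for all large `k`
and all integral vectors `u` with `|k α_i - γ_i - u_i| ≤ k ^ (-τ)`, and ALL the integers `m ≥ 1` with `|m - P(k, u)| ≤ k ^ w`: every interval
of length `H ≥ a ^ (θ - δ)` in `[m - m ^ θ, m + m ^ θ]` contains at least `c H / log a` primes, and all the consecutive primes `p < q` with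
`[p, q]` meeting `[m - m ^ θ, m + m ^ θ]` satisfy `√q - √p < p ^ (θ - 1/2 - δ)`. All the nonconstant polynomials, such as the linear
forms, have `SmallLevels P 1`, and the polynomials `x_0 ^ 2 + x_1 ^ 2 + Q(x_2, …)` have `SmallLevels P 2`. -/
theorem result :
    (∃ c δ : ℝ, 0 < c ∧ 0 < δ ∧ ∀ θ s : ℝ, Scale θ s → ∀ (d D : ℕ) (τ w l : ℝ) (γ : Fin d → ℝ), 1 ≤ d → 1 ≤ D → 0 ≤ τ →
      θ * D ≤ w → ∃ E : Set (Fin d → ℝ), dimH E ≤ ENNReal.ofReal ((d + 1 - l + s * D + w - δ) / (1 + τ)) ∧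
        (s * D + w + 1 ≤ l + d * τ → volume E = 0) ∧
        ∀ α, α ∉ E → ∀ P : MvPolynomial (Fin (d + 1)) ℤ, P.totalDegree ≤ D → SmallLevels P l →
          ∀ᶠ k : ℕ in atTop, ∀ u : Fin d → ℤ, Approx τ γ α k u → ∀ m : ℕ, 1 ≤ m →
            |(m : ℝ) - (MvPolynomial.eval (Fin.cons (k : ℤ) u : Fin (d + 1) → ℤ) P : ℤ)| ≤ (k : ℝ) ^ w →
              ManyPrimes c δ θ m ∧ SmallDifferences δ θ m) ∧
    (∀ (r : ℕ) (P : MvPolynomial (Fin r) ℤ), (∀ c : ℤ, P ≠ MvPolynomial.C c) → SmallLevels P 1) ∧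
    ∀ (r : ℕ) (Q : MvPolynomial (Fin r) ℤ), SmallLevels (squaresPlus Q) 2 := by
  refine ⟨?_, fun r P hP => Pool.Agent.U513.AP.lev_one P hP, fun r Q => Pool.Agent.U513.AP.lev_squares Q⟩
  obtain ⟨c1, δ1, hc1, hδ1, -, h1⟩ := Pool.Agent.U513.AP.scale_law Pool.Agent.Q278.KT.mainp_half (by norm_num)
    (by norm_num) (by norm_num) (by norm_num) (by norm_num)
  obtain ⟨c3, δ3, hc3, hδ3, -, h3⟩ := Pool.Agent.U513.AP.scale_law Pool.Agent.Q278.KT.mainp_1316 (by norm_num)
    (by norm_num) (by norm_num) (by norm_num) (by norm_num)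
  obtain ⟨c, hc⟩ : ∃ c : ℝ, c = min c1 c3 := ⟨_, rfl⟩
  obtain ⟨δ, hδ⟩ : ∃ δ : ℝ, δ = min δ1 δ3 / 2 := ⟨_, rfl⟩
  have hδm : 0 < min δ1 δ3 := lt_min hδ1 hδ3
  have a1 : c ≤ c1 ∧ δ ≤ δ1 / 2 := by
    rw [hc, hδ]; exact ⟨min_le_left _ _, div_le_div_of_nonneg_right (min_le_left _ _) (by norm_num)⟩
  have a3 : c ≤ c3 ∧ δ ≤ δ3 / 2 := by
    rw [hc, hδ]; exact ⟨min_le_right _ _, div_le_div_of_nonneg_right (min_le_right _ _) (by norm_num)⟩
  have hc0 : 0 < c := by rw [hc]; exact lt_min hc1 hc3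
  have hδ0 : 0 < δ := by rw [hδ]; positivity
  refine ⟨c, δ, hc0, hδ0, fun θ s hθs d D τ w l γ hd hD hτ hw => ?_⟩
  rcases hθs with ⟨rfl, rfl⟩ | ⟨rfl, rfl⟩
  · have e1 : (1 : ℝ) - 1 / 2 = 1 / 2 := by norm_num
    rw [e1] at h1
    obtain ⟨E, g1, g2, g3⟩ := (h1 (fun m => ManyPrimes c δ (1 / 2) m ∧ SmallDifferences δ (1 / 2) m) 0
      (fun m _ h => conv a1.1 (by linarith) h) d D τ w l γ hd hD hτ hw).mono hτ a1.2
    exact ⟨E, g1, g2, g3⟩
  · have e1 : (1 : ℝ) - 13 / 16 = 3 / 16 := by norm_num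
    rw [e1] at h3
    obtain ⟨E, g1, g2, g3⟩ := (h3 (fun m => ManyPrimes c δ (3 / 16) m ∧ SmallDifferences δ (3 / 16) m) 0
      (fun m _ h => conv a3.1 (by linarith) h) d D τ w l γ hd hD hτ hw).mono hτ a3.2
    exact ⟨E, g1, g2, g3⟩

end Pool.Agent.Results.MP_3998cf_nt.Approximations
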