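import Pool.Agent.S821.PolyTuple
import Pool.Agent.S821.GapIndex
import Pool.Agent.S821.Laws2
import Pool.Agent.Q278.KT.Fin

/-!
# The differences `√p_(n+1) - √p_n` for the indices `n` near polynomials in the values of several multiplicative functions

Let `F_1, …, F_k` be multiplicative functions such as the identity, Euler's function, the sum of the divisors, and let `P` be a
nonconstant polynomial in `k` variables with integral coefficients, `deg P · 0.306 + κ ≤ 1`, for example any quadratic or cubic form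
in `k` variables. We show that for all but `N ^ k / (log N) ^ U` of the `m ∈ [1, N] ^ k`, for every `U`, ALL the indices `n` in the
long interval `|n - P(F_1(m_1), …, F_k(m_k))| ≤ N ^ κ` satisfy `√p_(n+1) - √p_n < p_n ^ (-δ)`, for an absolute `δ > 0`. So the
limit relation of the question, with a power saving, holds along the indices `n = P(F(m))`, and in windows around them,
outside a very thin set of arguments: for example along `n = φ(a) σ(b) + φ(c)^2` and along the cubes `n = φ(a)^3`.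
The values form very thin sets of integers in general, and they are taken with large multiplicities, so that the theorem does
not follow from bounds for the number of exceptional `n ≤ X`. There are also versions for the gaps `p_(n+1) - p_n ≤ p_n ^ (0.57 - δ)` and `deg P ≤ 22`,
for `p_(n+1) - p_n ≤ p_n ^ (3/16 - δ)` and `deg P = 1`, and laws for the values of one function along the orbits of Euler's function and
for compositions of functions dominated by the largest prime factor.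

Proof. `Pool/Agent/Q278/KT` of the starting library bounds the number of separated short intervals with few primes (at most
`X ^ (0.306 - η)` intervals of length `x ^ (1/2 - η)`, `X ^ (0.045 - η)` of length `x ^ (0.57 - η)`, `X ^ (13/16 - η)` of length
`x ^ (3/16 - η)`; form of helper766 in `U766/OP/Core`). New: the indices of the large gaps (`S821/GapIndex`), and a law for
polynomials in several values (`S821/PolyTuple`) from the tuples law of `Pool/Agent/N733/TG/T` and the Schwartz-Zippel lemma.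
-/

set_option autoImplicit false

open Finset Filter

namespace Pool.Agent.Results.MP_3998cf_nt.SeveralValues

open Pool.Agent.N733.TG (LM Expanding)
open Pool.Agent.N375.AV (PD)
open Pool.Agent.S821.Laws (Three)

/-- The `n`-th prime, `p 0 = 2`. -/
noncomputable def p (n : ℕ) : ℝ := (Nat.nth Nat.Prime n : ℝ)

/-- The three scales. -/
def Scale (θ s : ℝ) : Prop := (θ = 1 / 2 ∧ s = 0.306) ∨ (θ = 0.57 ∧ s = 0.045) ∨ (θ = 3 / 16 ∧ s = 13 / 16)

/-- **The differences `√p_(n+1) - √p_n` near polynomials in several values.** There is a `δ > 0` with the following properties.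
Let `(θ, s) = (1/2, 0.306)`, `(0.57, 0.045)` or `(3/16, 13/16)`.

(1) Let `F_1, …, F_k` be functions of the class `LM`, `P` a nonconstant polynomial in `k` variables with integral coefficients,
`κ ≥ 0` and `deg P · s + κ ≤ 1`. Then for every `U`, for large `N`, for all but at most `N ^ k / (log N) ^ U` of the
`m ∈ [1, N] ^ k`, all `n` with `|n - P(F_1(m_1), …, F_k(m_k))| ≤ N ^ κ` satisfy `p_(n+1) - p_n ≤ p_n ^ (θ - δ)`, and, if
`s = 0.306`, also `√p_(n+1) - √p_n < p_n ^ (-δ)`.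

(2) Let `G` be expanding of exponent `d`, for example `G v = α v ^ d` with `α > 0`, `d ≥ 1`, and `κ ≥ 0`, `d s + κ ≤ 1`. Then the same is
true for all `n` with `|n - G v| ≤ v ^ κ`, in the sense of the three laws (`Three`) for the values `v` of one function.

(3) Examples of such functions. -/
theorem result :
    (∃ δ : ℝ, 0 < δ ∧
      (∀ θ s : ℝ, Scale θ s → ∀ (k : ℕ) (F : Fin k → ℕ → ℕ), (∀ i, LM (F i)) → ∀ P : MvPolynomial (Fin k) ℤ,
        (∀ c : ℤ, P ≠ MvPolynomial.C c) → ∀ κ : ℝ, 0 ≤ κ → P.totalDegree * s + κ ≤ 1 → ∀ U : ℕ,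
        ∃ N₀ : ℕ, ∀ N : ℕ, N₀ ≤ N →
          ({m : Fin k → ℕ | (∀ i, 1 ≤ m i ∧ m i ≤ N) ∧ ¬ ∀ n : ℕ,
            |(n : ℝ) - (MvPolynomial.eval (fun i => (F i (m i) : ℤ)) P : ℤ)| ≤ (N : ℝ) ^ κ →
              p (n + 1) - p n ≤ p n ^ (θ - δ) ∧ (s = 0.306 → Real.sqrt (p (n + 1)) - Real.sqrt (p n) < p n ^ (-δ))}.ncard : ℝ) ≤
            (N : ℝ) ^ k / Real.log N ^ U) ∧
      ∀ θ s : ℝ, Scale θ s → ∀ (G : ℕ → ℝ) (d : ℝ), Expanding G d → ∀ κ : ℝ, 0 ≤ κ → d * s + κ ≤ 1 →
        Three (fun v x => ∀ n : ℕ, 1 ≤ n → |(n : ℝ) - x| ≤ (v : ℝ) ^ κ →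
          p (n + 1) - p n ≤ p n ^ (θ - δ) ∧ (s = 0.306 → Real.sqrt (p (n + 1)) - Real.sqrt (p n) < p n ^ (-δ))) G) ∧
    (∀ α d : ℝ, 0 < α → 1 ≤ d → Expanding (fun v => α * (v : ℝ) ^ d) d) ∧
    (LM (fun m => m) ∧ LM Nat.totient ∧ LM (fun m => ∑ d ∈ m.divisors, d)) ∧
    ((∀ f : ℕ → ℕ, (∀ a b : ℕ, Nat.Coprime a b → f (a * b) = f a + f b) →
      (∃ C : ℕ, ∀ q j : ℕ, q.Prime → 1 ≤ j → f (q ^ j) ≤ C * q ^ j) →
      (∃ P : ℕ, ∀ p q : ℕ, p.Prime → q.Prime → P ≤ p → P ≤ q → f p = f q → p = q) → PD f) ∧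
      PD (fun n => n.primeFactors.sup id) ∧ PD (fun n => sInf {k : ℕ | n ∣ k.factorial})) := by
  obtain ⟨e1, e2, e3⟩ := Pool.Agent.S821.Laws.examples
  refine ⟨?_, fun α d hα hd => Pool.Agent.N733.TG.expanding_pow hα hd, e1, e2⟩
  obtain ⟨δ1, C1, hδ1, hδ1', hC1, h1⟩ := Pool.Agent.S821.GI.bad_index Pool.Agent.Q278.KT.mainp_half (by norm_num)
    (by norm_num) (by norm_num) (by norm_num)
  obtain ⟨δ2, C2, hδ2, hδ2', hC2, h2⟩ := Pool.Agent.S821.GI.bad_index Pool.Agent.Q278.KT.mainp_043 (by norm_num)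
    (by norm_num) (by norm_num) (by norm_num)
  obtain ⟨δ3, C3, hδ3, hδ3', hC3, h3⟩ := Pool.Agent.S821.GI.bad_index Pool.Agent.Q278.KT.mainp_1316 (by norm_num)
    (by norm_num) (by norm_num) (by norm_num)
  obtain ⟨δ, hδ⟩ : ∃ δ : ℝ, δ = min δ1 (min δ2 δ3) := ⟨_, rfl⟩
  have a1 : δ ≤ δ1 := by rw [hδ]; exact min_le_left _ _
  have a2 : δ ≤ δ2 := by rw [hδ]; exact (min_le_right _ _).trans (min_le_left _ _)
  have a3 : δ ≤ δ3 := by rw [hδ]; exact (min_le_right _ _).trans (min_le_right _ _)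
  have hδ0 : 0 < δ := by rw [hδ]; exact lt_min hδ1 (lt_min hδ2 hδ3)
  -- the uniform form
  have huni : ∀ θ s : ℝ, Scale θ s → ∃ δ' C : ℝ, δ ≤ δ' ∧ δ' ≤ 0.01 ∧ 0.02 ≤ s ∧ 0 ≤ C ∧ ∀ X : ℝ, 1 ≤ X →
      {n : ℕ | p n ^ (θ - δ') < p (n + 1) - p n ∧ (n : ℝ) ≤ X}.Finite ∧
      ({n : ℕ | p n ^ (θ - δ') < p (n + 1) - p n ∧ (n : ℝ) ≤ X}.ncard : ℝ) ≤ C * X ^ (s - δ') := by
    rintro θ s (⟨g1, g2⟩ | ⟨g1, g2⟩ | ⟨g1, g2⟩)
    · refine ⟨δ1, C1, a1, hδ1', by rw [g2]; norm_num, hC1, ?_⟩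
      have e : θ - δ1 = 1 - 1 / 2 - δ1 := by rw [g1]; norm_num
      rw [e, g2]
      exact h1
    · refine ⟨δ2, C2, a2, hδ2', by rw [g2]; norm_num, hC2, ?_⟩
      have e : θ - δ2 = 1 - 0.43 - δ2 := by rw [g1]; norm_num
      rw [e, g2]
      exact h2
    · refine ⟨δ3, C3, a3, hδ3', by rw [g2]; norm_num, hC3, ?_⟩
      have e : θ - δ3 = 1 - 13 / 16 - δ3 := by rw [g1]; norm_num
      rw [e, g2]
      exact h3
  have hp2 : ∀ n, 2 ≤ p n := fun n => by
    unfold p
    exact_mod_cast (Nat.prime_nth_prime n).two_le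
  have hmono : ∀ n, p n < p (n + 1) := fun n => by
    unfold p
    exact_mod_cast Nat.nth_strictMono Nat.infinite_setOfPred_prime (Nat.lt_succ_self n)
  have hθs : ∀ θ s : ℝ, Scale θ s → s = 0.306 → θ = 1 / 2 := by
    rintro θ s (⟨g1, g2⟩ | ⟨g1, g2⟩ | ⟨g1, g2⟩) h
    · exact g1
    · rw [g2] at h; norm_num at h
    · rw [g2] at h; norm_num at h
  -- the conclusion for a good index
  have hgood : ∀ (θ s δ' : ℝ) (n : ℕ), Scale θ s → δ ≤ δ' → ¬ p n ^ (θ - δ') < p (n + 1) - p n →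
      p (n + 1) - p n ≤ p n ^ (θ - δ) ∧ (s = 0.306 → Real.sqrt (p (n + 1)) - Real.sqrt (p n) < p n ^ (-δ)) := by
    intro θ s δ' n hsc hle hn
    push Not at hn
    have q1 : p (n + 1) - p n ≤ p n ^ (θ - δ) :=
      hn.trans (Real.rpow_le_rpow_of_exponent_le (by linarith [hp2 n]) (by linarith))
    refine ⟨q1, fun hs => ?_⟩
    rw [hθs θ s hsc hs] at q1
    have hp0 : 0 < p n := by linarith [hp2 n]
    have hq0 : 0 < p (n + 1) := by linarith [hp2 (n + 1)]
    have hsp : 0 < Real.sqrt (p n) := Real.sqrt_pos.2 hp0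
    have hsq : Real.sqrt (p n) < Real.sqrt (p (n + 1)) := Real.sqrt_lt_sqrt hp0.le (hmono n)
    have h4 : (Real.sqrt (p (n + 1)) - Real.sqrt (p n)) * (Real.sqrt (p (n + 1)) + Real.sqrt (p n)) = p (n + 1) - p n := by
      have e1 := Real.mul_self_sqrt hp0.le
      have e2 := Real.mul_self_sqrt hq0.le
      nlinarith
    have h5 : (p n) ^ (1 / 2 - δ) = (p n) ^ (-δ) * Real.sqrt (p n) := by
      rw [Real.sqrt_eq_rpow, ← Real.rpow_add hp0]
      congr 1
      ring
    have h6 : 0 < (p n) ^ (-δ) := Real.rpow_pos_of_pos hp0 _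
    by_contra hcon
    push Not at hcon
    have h7 : (p n) ^ (-δ) * (Real.sqrt (p (n + 1)) + Real.sqrt (p n)) ≤ p (n + 1) - p n := by
      rw [← h4]
      exact mul_le_mul_of_nonneg_right hcon (by linarith)
    nlinarith
  refine ⟨δ, hδ0, fun θ s hsc k F hF P hP κ hκ hle U => ?_, fun θ s hsc G d hG κ hκ hle => ?_⟩
  · obtain ⟨δ', C, q1, q2, q3, q4, q5⟩ := huni θ s hsc
    have hd1 : 1 ≤ P.totalDegree := by
      by_contra h
      exact hP _ (MvPolynomial.totalDegree_eq_zero_iff_eq_C.1 (by omega))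
    have hd1' : (1 : ℝ) ≤ P.totalDegree := by exact_mod_cast hd1
    obtain ⟨N₀, hN₀⟩ := Pool.Agent.S821.PT.poly_law hF P hP {n : ℕ | p n ^ (θ - δ') < p (n + 1) - p n} (s := s - δ')
      (κ := κ) (by linarith) hκ (by nlinarith) C q5 U
    refine ⟨N₀, fun N hN => le_trans (Nat.cast_le.2 (Set.ncard_le_ncard ?_ ?_)) (hN₀ N hN)⟩
    · rintro m ⟨hm, hm2⟩
      refine ⟨hm, ?_⟩
      by_contra hcon
      push Not at hcon
      refine hm2 fun n hn => hgood θ s δ' n hsc q1 fun hb => ?_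
      exact absurd hn (not_le.2 (hcon n hb))
    · refine (Set.Finite.pi' fun _ : Fin k => Set.finite_Icc 1 N).subset ?_
      rintro m ⟨hm, -⟩ i
      exact hm i
  · obtain ⟨δ', C, q1, q2, q3, q4, q5⟩ := huni θ s hsc
    have hd1 : 1 ≤ d := hG.1
    refine (Pool.Agent.S821.Laws.three_nat' (fun n => p n ^ (θ - δ') < p (n + 1) - p n) (s := s - δ') (by linarith)
      ⟨C, fun X hX => ?_⟩ hG hκ (by nlinarith)).mono fun v x h n hn hnx => hgood θ s δ' n hsc q1 (h n hn hnx)
    have hX1 : (1 : ℝ) ≤ X := by exact_mod_cast hX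
    obtain ⟨r1, r2⟩ := q5 X hX1
    refine le_trans (Nat.cast_le.2 (Set.ncard_le_ncard ?_ r1)) r2
    rintro n ⟨-, hn2, hn3⟩
    exact ⟨hn3, by exact_mod_cast hn2⟩

end Pool.Agent.Results.MP_3998cf_nt.SeveralValues
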