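import Pool.Agent.U602.BE.Fam
import Pool.Agent.U602.AB.Smooth

set_option autoImplicit false

/-! # Record prime gaps around smooth functions of `n`, the digits of Beatty sequences at `n` prescribed

Let `α₁, …, α_d > 0` be real numbers such that `|h₁ α₁ + ⋯ + h_d α_d - m| ≥ c₁ H ^ (-τ₁)` for all
integers `m` and all integers `h_j`, not all zero, with `|h_j| ≤ H`, and `β₁, …, β_d` real. Consider
the digits of the integers `m_i(n) = ⌊α_i n + β_i⌋`, `i ≤ d`, each in one or more bases: for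
`a = 1, …, s` let `b_a ≥ 2` be a base, `φ(a) ≤ d`, and let `S_a : ℕ → G_a` be strongly `b_a`-additive
with values in a finite abelian group, `S_a (b_a n + t) = S_a n + S_a t` for `t < b_a`, and such that no
nontrivial character of `S_a n` depends only on `n mod (b_a - 1)`. The bases used for the same `m_i`
are pairwise coprime; the bases used for different `m_i` are arbitrary. Let `f₁, …, f_r` be real
functions, twice differentiable near infinity, with `|f_j''(t)| = t ^ (c_j - 2 + o(1))` for distinct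
numbers `1 ≤ c_j < 2` and with `f_j(t) ≥ t ^ τ` for some `τ > 0`; for instance
`f_j(t) = γ_j t ^ (c_j)` with `γ_j > 0` and `1 < c_j < 2`, or `t log t`.

For every `ε > 0` there is `κ > 0` such that for all large `X` and all `g_a ∈ G_a` there are at least
`X ^ (1 - ε)` integers `n ≤ X` with `S_a (m_{φ(a)}(n)) = g_a` for all `a` such that no prime lies within
`κ log X (log₂ X)² log₄ X / (log₃ X)²` of any of the numbers `f₁(n), …, f_r(n)`.

So the differences `√p' - √p` of consecutive primes are larger than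
`κ log X (log₂ X)² log₄ X / (√x (log₃ X)²)` at the same time near all the points `x = f_j(n)`.

Proof. Power saving, uniform in the frequency and in the interval, for the exponential sums with the
digits of the Beatty sequences (`U602/BE`: van der Corput's inequality, discrepancy of `α n`,
fourth moments of strongly additive functions). In a block of length `X ^ ε₁` the combinations
`∑ h_j f_j(n) / q` are linear up to a negative power of `X`, and the frequency `∑ h_j f_j'(N) / q` is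
close to an integer for few blocks only. The joint covering criterion `crit_scaledJ` of the starting
library does the rest. -/

namespace Pool.Agent.Results.MP_3998cf_nt.SmoothFunctionsBeattyDigits

open Filter Topology

theorem result (d : ℕ) (hd : 1 ≤ d) (α β : Fin d → ℝ) (hα : ∀ i, 0 < α i)
    (c₁ τ₁ : ℝ) (hc₁ : 0 < c₁) (hτ₁ : 0 ≤ τ₁)
    (hdio₁ : ∀ (H : ℕ) (h : Fin d → ℤ), h ≠ 0 → (∀ j, |h j| ≤ H) → ∀ m : ℤ,
      c₁ * (H : ℝ) ^ (-τ₁) ≤ |∑ j, (h j : ℝ) * α j - m|)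
    (s : ℕ) (hs : 1 ≤ s) (φ : Fin s → Fin d) (b : Fin s → ℕ) (hb : ∀ a, 2 ≤ b a)
    (hcop : ∀ a a', a ≠ a' → φ a = φ a' → (b a).Coprime (b a'))
    (G : Fin s → Type) [∀ a, AddCommGroup (G a)] [∀ a, Finite (G a)] (S : ∀ a, ℕ → G a)
    (hS : ∀ (a : Fin s) (n t : ℕ), t < b a → S a (b a * n + t) = S a n + S a t)
    (hN : ∀ (a : Fin s) (χ : AddChar (G a) ℂ), χ (S a 1) ^ (b a - 1) = 1 →
      (∀ t < b a, χ (S a t) = χ (S a 1) ^ t) → ∀ g : G a, χ g = 1)
    (r : ℕ) (hr : 1 ≤ r) (c : Fin r → ℝ) (hc1 : ∀ j, 1 ≤ c j) (hc2 : ∀ j, c j < 2)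
    (hc : Function.Injective c) (f : Fin r → ℝ → ℝ)
    (hf1 : ∀ j, ∀ᶠ t : ℝ in atTop, DifferentiableAt ℝ (f j) t ∧ DifferentiableAt ℝ (deriv (f j)) t)
    (hf2 : ∀ j, ∀ σ : ℝ, 0 < σ → ∀ᶠ t : ℝ in atTop,
      t ^ (c j - 2 - σ) ≤ |deriv (deriv (f j)) t| ∧ |deriv (deriv (f j)) t| ≤ t ^ (c j - 2 + σ))
    (τ : ℝ) (hτ : 0 < τ) (hf3 : ∀ j, ∀ᶠ t : ℝ in atTop, t ^ τ ≤ f j t)
    (ε : ℝ) (hε : 0 < ε) :
    ∃ κ : ℝ, 0 < κ ∧ ∃ X₀ : ℝ, ∀ X : ℝ, X₀ ≤ X → ∀ g : ∀ a, G a,
      X ^ (1 - ε) ≤ ({n : ℕ | (∀ a, S a ⌊α (φ a) * n + β (φ a)⌋₊ = g a) ∧ (n : ℝ) ≤ X ∧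
        ∀ j, ∀ q : ℕ, q.Prime →
        κ * (Real.log X * (Real.log (Real.log X)) ^ 2 *
          Real.log (Real.log (Real.log (Real.log X))) / (Real.log (Real.log (Real.log X))) ^ 2) <
            |(q : ℝ) - f j n|}.ncard : ℝ) := by
  classical
  have : ∀ a, Fintype (G a) := fun a => Fintype.ofFinite (G a)
  have : Nonempty (Fin s) := ⟨⟨0, hs⟩⟩
  have hbl := Pool.Agent.U602.BE.blocks_be hd φ b hb hcop S hS (by
    rintro a χ hχ ⟨h1, h2⟩
    apply hχ
    ext g
    simpa using hN a χ h1 h2 g) α β hα c₁ τ₁ hc₁ hτ₁ hdio₁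
  obtain ⟨κ, hκ, h⟩ := Pool.Agent.U602.AB.family_smooth _ hbl r hr c hc1 hc2 hc f
    (fun j => deriv (f j)) (fun j => deriv (deriv (f j)))
    (fun j => (hf1 j).mono fun t ht => ht.1.hasDerivAt)
    (fun j => (hf1 j).mono fun t ht => ht.2.hasDerivAt) hf2 τ hτ hf3 ε hε
  obtain ⟨X₀, hX₀⟩ := eventually_atTop.1 h
  refine ⟨κ, hκ, max X₀ 0, fun X hX g => ?_⟩
  have h1 := hX₀ X ((le_max_left _ _).trans hX) g
  have hX0 : 0 ≤ X := (le_max_right _ _).trans hX
  refine h1.trans (le_of_eq ?_)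
  rw [← Set.ncard_coe_finset]
  congr 2
  ext n
  simp only [Finset.coe_filter, Finset.mem_range, Set.mem_ofPred_eq, Nat.lt_succ_iff,
    Nat.le_floor_iff hX0]
  constructor
  · rintro ⟨h2, h3, h4⟩
    exact ⟨fun a => congrFun h3 a, h2, h4⟩
  · rintro ⟨h2, h3, h4⟩
    exact ⟨h3, funext h2, h4⟩

end Pool.Agent.Results.MP_3998cf_nt.SmoothFunctionsBeattyDigits
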